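import Pool.Agent.R505.KA.Sub
import Pool.Agent.R869.SPtd
import Pool.Agent.R869.UAll

/-!
MP_1e3e9c_ag, Q1: Kobayashi hyperbolicity and the canonical classes of the closed subvarieties, for the
projective varieties given by linear combinations of the powers `x_j ^ d` and of `s` further monomials
of degree `d`, in given sets of variables, for almost all choices of these monomials: `X` is hyperbolic
if and only if all closed subvarieties of positive dimension (in particular `X` itself, if it is
irreducible) have a big canonical class, and if and only if none of them is ruled; for the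
hypersurfaces among them (with arbitrary coefficients), a necessary and sufficient combinatorial
criterion.

The canonical classes are those of smooth projective models, given by the function field: `GeneralType`
(big), `KodGe` with `0` (a multiple is effective), `Psef` (pseudo-effective), `Ruled` (birational to a
product with the projective line), see `Pool/Agent/W602/GT` (starting repository). `AllSub P F`
(`Pool/Agent/R505/KA/Sub.lean`): all closed subvarieties of positive dimension of `X = {F = 0}` have the
property `P` of the function field and of the dimension. `Brody F`: all entire curves in `X` are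
constant; `HyperbolicNear F`: all varieties near `X` are hyperbolic; `NoRationalCurves F`: all morphisms
from the projective line to `X` are constant.

The other definitions are those of `MP_c6ff8d_ag.AlmostAllMonomials` (helper869), whose library `R869` is
used: `Loose F J` (`USharpDefs.lean`): `F` does not have exactly one monomial in the variables from `J`,
and there is a colouring of the variables with `V ≥ 2` colours on `J` such that `N + D + 4 ≤ 2 V`, where
`N` is the number of the monomials of `F` in the variables from `J` whose variables have different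
colours, and `D` is the number of the colours on `J` for which exactly one monomial of `F` in the
variables from `J` has all its variables of this colour. `AlmostAllIn I P`, `Spread I m J`
(`SDefs.lean`), `withPowers` (`WDensDefs.lean`), `GenCoeffs F T` (`WGen.lean`).
-/

set_option autoImplicit false

namespace Pool.Agent.Results.MP_1e3e9c_ag.AlmostAllMonomials

open MvPolynomial Pool.Agent.W602.GT Pool.Agent.H159R3.GGLLog Pool.Agent.R869.Wd
open Pool.Agent.R505.KA
open Pool.Agent.Y190.PH (Brody)

/-- For `X = {F = 0}`, the following are equivalent: `X` is hyperbolic; all closed subvarieties of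
positive dimension have a big canonical class (are of general type); for all of them a multiple of the
canonical class is effective; all of them have a pseudo-effective canonical class; none of them is
ruled; `X` contains no rational curves; all projective varieties near `X`, and `X` itself, are
hyperbolic. -/
def Equivalent {n : ℕ} {ι : Type} (F : ι → MvPolynomial (Fin (n + 1)) ℂ) : Prop :=
  [Brody F, AllSub (fun K _ _ w => GeneralType ℂ K w) F,
    AllSub (fun K _ _ w => KodGe ℂ K w (fun _ => False) 0) F,
    AllSub (fun K _ _ w => Psef ℂ K w (fun _ => False)) F,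
    AllSub (fun K _ _ _ => ¬ Ruled ℂ K) F, NoRationalCurves F, HyperbolicNear F].TFAE

/-- Some closed subvariety of positive dimension of the hypersurface `X = {F = 0}`, on which exactly the
coordinates outside `J` vanish identically, has the property `P`. -/
def SomeSub {n : ℕ} (P : (K : Type) → [Field K] → [Algebra ℂ K] → ℕ → Prop)
    (F : MvPolynomial (Fin (n + 1)) ℂ) (J : Finset (Fin (n + 1))) : Prop :=
  ∃ (K : Type) (_ : Field K) (_ : Algebra ℂ K) (w : ℕ) (y : Fin (n + 1) → K), 1 ≤ w ∧
    SubVar (fun _ : Fin 1 => F) K w y ∧ (∀ j, y j ≠ 0 ↔ j ∈ J) ∧ P K w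

/-- The hypersurface `X = {F = 0}` is hyperbolic if and only if no set of variables is loose for `F`;
for all sets `J` of variables the following are equivalent: `J` is loose for `F`; there is an entire
curve in `X` on which exactly the coordinates outside `J` vanish identically; there is such a closed
subvariety of positive dimension of `X` whose canonical class is not big; such a subvariety for which
no multiple of the canonical class is effective; such a subvariety whose canonical class is not
pseudo-effective; such a subvariety which is ruled. -/
def LooseCriterion {n : ℕ} (F : MvPolynomial (Fin (n + 1)) ℂ) : Prop :=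
  (Brody (fun _ : Fin 1 => F) ↔ ∀ J, ¬ Loose F J) ∧
  ∀ J : Finset (Fin (n + 1)),
    [Loose F J,
      ∃ f, EntireCurve ∅ (fun _ : Fin 1 => F) f ∧ ∀ j, (∃ z, f z j ≠ 0) ↔ j ∈ J,
      SomeSub (fun K _ _ w => ¬ GeneralType ℂ K w) F J,
      SomeSub (fun K _ _ w => ¬ KodGe ℂ K w (fun _ => False) 0) F J,
      SomeSub (fun K _ _ w => ¬ Psef ℂ K w (fun _ => False)) F J,
      SomeSub (fun K _ _ _ => Ruled ℂ K) F J].TFAE

theorem SomeSub.imp {n : ℕ} {P P' : (K : Type) → [Field K] → [Algebra ℂ K] → ℕ → Prop}
    {F : MvPolynomial (Fin (n + 1)) ℂ} {J : Finset (Fin (n + 1))} (h : SomeSub P F J)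
    (hP : ∀ (K : Type) [Field K] [Algebra ℂ K] (w : ℕ), Algebra.trdeg ℂ K = w → P K w → P' K w) :
    SomeSub P' F J := by
  obtain ⟨K, i1, i2, w, y, hw, hy, hJ, hPK⟩ := h
  exact ⟨K, i1, i2, w, y, hw, hy, hJ, hP K w hy.dim hPK⟩

/-- (1) For all `n`, `s`, all nonempty sets of variables `I 1, …, I s` and almost all tuples of
monomials of degree `d` in `n + 1` variables, the `i`-th one in the variables from `I i`, the conditions
in `Equivalent` are equivalent for all projective varieties given by `m` linear combinations of these
monomials and of the `x_j ^ d`. `LooseCriterion F` holds for all such linear combinations `F`, with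
arbitrary coefficients. If any `m` of the coefficient vectors of the `m` linear combinations are
linearly independent, and the `I i` are well spread, with respect to `m`, on all sets of variables,
then `X` and all varieties near `X` are hyperbolic, and all closed subvarieties of positive dimension
of `X` have a big canonical class.

(2) The `I i` are well spread, with respect to `m`, on all sets of variables if all sets of `2 m + 2`
variables are among the `I i`, `m ≥ 1`, and all `I i` have at least `m + 1` elements. -/
theorem result :
    (∀ (n s : ℕ) (I : Fin s → Finset (Fin (n + 1))), (∀ i, (I i).Nonempty) →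
      AlmostAllIn I fun d a => (∀ (m : ℕ) (F : Fin m → MvPolynomial (Fin (n + 1)) ℂ),
        (∀ e, (F e).support ⊆ withPowers d a) → Equivalent F ∧
        (GenCoeffs F (withPowers d a) → (∀ J, Spread I m J) →
          Brody F ∧ HyperbolicNear F ∧ AllSub (fun K _ _ w => GeneralType ℂ K w) F)) ∧
        ∀ F : MvPolynomial (Fin (n + 1)) ℂ, F.support ⊆ withPowers d a → LooseCriterion F) ∧
    ∀ (n m s : ℕ) (I : Fin s → Finset (Fin (n + 1))), 1 ≤ m → (∀ i, m + 1 ≤ (I i).card) →
      (∀ A : Finset (Fin (n + 1)), A.card = 2 * m + 2 → ∃ i, I i = A) → ∀ J, Spread I m J := by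
  classical
  refine ⟨?_, fun n m s I hm hI hall => spread_all hm hI hall⟩
  intro n s I hI
  refine almost_typI hI fun d a hty => ?_
  obtain ⟨A, hA⟩ := hty.bound
  obtain ⟨s', N, hg⟩ := hty.good
  have heq : ∀ (m : ℕ) (F : Fin m → MvPolynomial (Fin (n + 1)) ℂ),
      (∀ e, (F e).support ⊆ withPowers d a) → Equivalent F := fun m F hFT =>
    main (hg.sys hFT ∅) (hA ℂ m F ∅ hFT).1
  refine ⟨fun m F hFT => ⟨heq m F hFT, fun hgc hsp => ?_⟩, fun F hF => ⟨?_, fun J => ?_⟩⟩
  · have h1 : Equivalent F := heq m F hFT
    have h2 : AllGeneralType F := hty.all hFT hgc hsp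
    have h3 : Brody F := (h1.out 0 1).2 h2
    exact ⟨h3, (h1.out 0 6).1 h3, h2⟩
  · have h1 : Equivalent (fun _ : Fin 1 => F) := heq 1 _ fun _ => hF
    rw [hty.loose_general hF]
    exact h1.out 0 1
  · have hform : ∀ e : Fin 1, IsForm ((fun _ : Fin 1 => F) e) :=
      fun e => (hg.sys (F := fun _ : Fin 1 => F) (fun _ => hF) ∅).form e
    have h1 := hty.crit hF J
    have h2 := hty.critSub hF (U := ∅) (J := J) fun j hj => absurd hj (Set.notMem_empty j)
    tfae_have 1 ↔ 2 := h1.out 0 3
    tfae_have 3 → 1 := by
      rw [h2]
      rintro ⟨K, i1, i2, w, y, hw, hy, hyJ, hgt⟩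
      exact ⟨K, i1, i2, w, y, hw, subVar_iff.2 hy, hyJ, fun h3 => hgt ((general_iff y).1 h3)⟩
    tfae_have 1 → 6 := by
      intro h3
      obtain ⟨x, b, hx, hb, hO⟩ := (h1.out 0 1).1 h3
      obtain ⟨K, i1, i2, y, hy, hr, hyJ⟩ := ruled_of_orbit hform hx hb hO
      exact ⟨K, i1, i2, 1, y, le_rfl, hy, hyJ, hr⟩
    tfae_have 6 → 5 := fun h3 => h3.imp fun K _ _ w hw hr => by
      obtain ⟨C, σ, k1, k2⟩ := hr
      exact not_psef_of hw C k1 k2
    tfae_have 5 → 4 := fun h3 => h3.imp fun K _ _ w hw hp hk => hp (psef_of_kodGe hk)
    tfae_have 4 → 3 := fun h3 => h3.imp fun K _ _ w hw hp hk => hp (kod_of_general hk)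
    tfae_finish

end Pool.Agent.Results.MP_1e3e9c_ag.AlmostAllMonomials
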