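import Pool.Agent.Results.MP_97d78d_ag.CurveFibrations
import Pool.Agent.R882.HYM

/-!
# Kobayashi's conjecture for images of hypersurfaces fibred by curves of arbitrary genus

Let `V` be a component of the hypersurface `f = 0` in the torus with the coordinates
`t 1, ..., t n, x, y`, where the Laurent polynomial `f` is nondegenerate in the sense of Khovanskii.
Suppose that `x` and `y` appear in `f` only with exponents `(i, j)` in the trapezoid `T` given by
`0 ≤ j ≤ b`, `0 ≤ i ≤ a + s (b - j)`; the Newton polytope of `f` is arbitrary otherwise. Suppose that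
`t 1, ..., t n, x` are algebraically independent on `V`, and that the generic fibres of the map
`V ⇢ V' = (ℙ ^ 1) ^ n` given by `t` are irreducible. These fibres are curves on a rational ruled
surface (or plane curves: `a = 0`, `s = 1`); they may have any genus. Suppose that for all lattice
points `(i, j)` in the interior of `T` there is a vector `u i j` over `(i, j)` such that `u i j` and
the `u i j + M e l`, where `e 1, ..., e n` are the unit vectors of the coordinates `t`, are in the
Fine interior of the Newton polytope of `f`. For example, `V` may be a general hypersurface of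
multidegree `(e 1, ..., e n, a, b)` in `(ℙ ^ 1) ^ (n + 2)` with `e l ≥ M + 2`, or of multidegree
`(e 1, ..., e n, b)` in `(ℙ ^ 1) ^ n × ℙ ^ 2`.

Let `V ⇢ W` be a dominant rational map of finite degree `r`. The map is arbitrary; it is not assumed
to be related to the fibration. Let `W'` be the image of `V` in `W × V'`, and let `m ≤ r` be the
degree of `W' → W`.


Suppose that `2 m ≤ M + 1`, and let `W` be a projective variety, smooth or not. The theorem: if the union
of the rational curves on `W` is not Zariski dense, in particular if `W` has no rational curve, in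
particular if `W` is Kobayashi hyperbolic (every holomorphic map from `ℂ` to `W` is constant), then
`κ(W) ≥ n = dim W - 1`. If `W` is smooth and Kobayashi hyperbolic then `K_W` is ample, as Kobayashi's
conjecture predicts: if `κ(W) = dim W - 1` then the general fibres of the Iitaka fibration are elliptic
curves, and there would be nonconstant holomorphic maps from `ℂ` to `W`; so `K_W` is big, and a big
canonical divisor is ample if there are no rational curves (cone theorem, base point free theorem).
These last standard steps are not formalised here.

It is used that `W` is uniruled or `κ(W) ≥ n`, which is `MP_97d78d_ag.CurveFibrations` of this team.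

`K` and `L` are the function fields of `V` and `W`, and `x` is the generic point of `W`, in homogeneous
coordinates: `coords ℂ x` is the field generated by their ratios, and `VarPts ℂ x` is the set of the
points of `W`. `NoRationalCurve`, `BrodyHyperbolic`, `SpRat` (the Zariski closure of the union of the
rational curves on `W`) are in `Pool/Agent/R882/HYDefs.lean`.
-/

set_option autoImplicit false
set_option linter.overlappingInstances false

open FF Module Pool.Agent Pool.Agent.W602.GT Pool.Agent.R885
open Pool.Agent.R882.HY (NoRationalCurve BrodyHyperbolic SpRat)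
open Pool.Agent.Results.MP_97d78d_ag.CurveFibrations (Nondegenerate InFine InTrapezoid Interior)

namespace Pool.Agent.Results.MP_1e3e9c_ag.CurveFibrations

/-- **Hyperbolic images of fibrations by curves.** -/
theorem result {n a s b M : ℕ} (hM : 1 ≤ M) {f : (Fin (n + 2) → ℤ) →₀ ℂ}
    (hf : Nondegenerate f) (hT : InTrapezoid f a s b) {K : Type} [Field K] [Algebra ℂ K]
    {z : Fin (n + 2) → K} (hz : ∀ i, z i ≠ 0) (hfz : ev z f = 0)
    (hgen : IntermediateField.adjoin ℂ (Set.range z) = ⊤) (hK : Algebra.trdeg ℂ K = (n + 1 : ℕ))
    (hind : AlgebraicIndependent ℂ fun i : Fin (n + 1) => z i.castSucc)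
    {t : Fin n → K} (ht : ∀ l, t l = z l.castSucc.castSucc)
    (hcl : ∀ g : K, IsAlgebraic (IntermediateField.adjoin ℂ (Set.range t)) g →
      g ∈ IntermediateField.adjoin ℂ (Set.range t))
    {u : ℕ → ℕ → Fin (n + 2) → ℤ}
    (hu : ∀ i j, Interior a s b i j → u i j (Fin.last n).castSucc = i ∧
      u i j (Fin.last (n + 1)) = j ∧ InFine f (u i j) ∧
      ∀ l : Fin n, InFine f (u i j + (M : ℤ) • Pi.single l.castSucc.castSucc 1))
    (L : Type) [Field L] [Algebra ℂ L] [Algebra L K] [IsScalarTower ℂ L K]
    [FiniteDimensional L K]
    (degree : 2 * Module.finrank L (IntermediateField.adjoin L (Set.range t)) ≤ M + 1)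
    {N : ℕ} {x : Fin (N + 1) → L} (hx : x ≠ 0) (hxgen : coords ℂ x = ⊤) :
    (SpRat x ≠ VarPts ℂ x → KodGe ℂ L (n + 1) (fun _ => False) n) ∧
    (NoRationalCurve x → KodGe ℂ L (n + 1) (fun _ => False) n) ∧
    (BrodyHyperbolic x → KodGe ℂ L (n + 1) (fun _ => False) n) := by
  have hL : Algebra.trdeg ℂ L = (n + 1 : ℕ) := Pool.Agent.Y184.NT.trdeg_below (K := K) hK
  have h1 : NoRationalCurve x → KodGe ℂ L (n + 1) (fun _ => False) n := by
    intro h
    rcases (Pool.Agent.Results.MP_97d78d_ag.CurveFibrations.result hM hf hT hz hfz hgen hK hind ht
      hcl hu L).2 degree with hU | hk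
    · exact absurd h (Pool.Agent.R882.HY.not_noRat hL hU hx hxgen)
    · exact hk
  refine ⟨fun h => ?_, h1, fun h => h1 (Pool.Agent.R882.HY.noRat_of_hyperbolic h)⟩
  rcases (Pool.Agent.Results.MP_97d78d_ag.CurveFibrations.result hM hf hT hz hfz hgen hK hind ht
    hcl hu L).2 degree with hU | hk
  · exact absurd (Pool.Agent.R882.HY.spRat_eq hL hU hx hxgen) h
  · exact hk

end Pool.Agent.Results.MP_1e3e9c_ag.CurveFibrations
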